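import Mathlib

set_option autoImplicit false

namespace Pool.Agent.Results.MP_0ef12e_an.Yes

open List

/-- v is a realisation of the substitution on the word u -/
def Img {A : Type} (θ : A → Finset (List A)) (u v : List A) : Prop :=
  ∃ L : List (List A), Forall₂ (fun a w => w ∈ θ a) u L ∧ v = L.flatten

/-- v is a realisation of the p-th power on u -/
def Pow {A : Type} (θ : A → Finset (List A)) : ℕ → List A → List A → Prop
  | 0, u, v => v = u
  | p + 1, u, v => ∃ w, Pow θ p u w ∧ Img θ w v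

/-- legal words -/
def Legal {A : Type} (θ : A → Finset (List A)) (w : List A) : Prop :=
  ∃ a p v, Pow θ p [a] v ∧ w <:+: v

/-- the subshift -/
def X {A : Type} (θ : A → Finset (List A)) : Set (ℤ → A) :=
  {x | ∀ (i : ℤ) (n : ℕ), Legal θ ((range n).map fun j : ℕ => x (i + j))}

/-- primitive compatible non-degenerate random substitution -/
def Good {A : Type} [DecidableEq A] (θ : A → Finset (List A)) : Prop :=
  (∀ a, (θ a).Nonempty ∧ ∀ w ∈ θ a, w ≠ []) ∧
  (∀ a, ∀ u ∈ θ a, ∀ v ∈ θ a, ∀ b, u.count b = v.count b) ∧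
  (∃ p, 1 ≤ p ∧ ∀ a b, ∃ v, Pow θ p [b] v ∧ a ∈ v) ∧ ∃ a, 2 ≤ (θ a).card

/-- the four words -/
def W : Finset (List (Fin 5)) := {[0, 1, 2, 3, 4], [1, 0, 2, 3, 4], [0, 1, 2, 4, 3], [1, 0, 2, 4, 3]}

/-- local rule -/
def g (s t : Fin 5) : Fin 5 :=
  if s = 0 then 3 else if s = 1 then 4 else if t = 3 then 0 else if t = 4 then 1 else 2

/-- local rule on words -/
def G : List (Fin 5) → List (Fin 5)
  | s :: t :: w => g s t :: G (t :: w)
  | _ => []

theorem long (m : ℕ) : ∃ p u, Pow (fun _ => W) p [0] u ∧ m < u.length := by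
  induction m with
  | zero => exact ⟨0, [0], rfl, by simp⟩
  | succ m ih =>
    obtain ⟨p, u, a, b⟩ := ih
    refine ⟨p + 1, _, ⟨u, a, u.map fun _ => [0, 1, 2, 3, 4], ?_, rfl⟩, ?_⟩
    · rw [forall₂_map_right_iff, forall₂_same]; intro _ _; simp [W]
    · simp; omega

theorem legal_iff (w : List (Fin 5)) : Legal (fun _ => W) w ↔
    ∃ L : List (List (Fin 5)), (∀ v ∈ L, v ∈ W) ∧ w <:+: L.flatten := by
  constructor
  · rintro ⟨a, p, v, h, hw⟩
    cases p with
    | zero =>
      refine ⟨[[0, 1, 2, 3, 4]], by decide, hw.trans ?_⟩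
      rw [show v = [a] from h]
      clear h; revert a; decide
    | succ p =>
      obtain ⟨u, -, L, h, rfl⟩ := h
      refine ⟨L, fun v hv => ?_, hw⟩
      obtain ⟨i, hi, rfl⟩ := mem_iff_getElem.1 hv
      exact (forall₂_iff_get.1 h).2 i (h.length_eq ▸ hi) hi
  · rintro ⟨L, h, hw⟩
    obtain ⟨p, u, a, b⟩ := long L.length
    refine ⟨0, p + 1, _, ⟨u, a, L ++ replicate (u.length - L.length) [0, 1, 2, 3, 4], ?_, rfl⟩,
      hw.trans (by rw [flatten_append]; exact (prefix_append _ _).isInfix)⟩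
    refine forall₂_iff_get.2 ⟨by simp; omega, fun i _ h2 => ?_⟩
    rcases mem_append.1 (get_mem _ ⟨i, h2⟩) with c | c
    · exact h _ c
    · rw [eq_of_mem_replicate c]; simp [W]

theorem G_inf {w v : List (Fin 5)} (h : w <:+: v) : G w <:+: G v := by
  obtain ⟨a, b, rfl⟩ := h
  have h1 : ∀ w : List (Fin 5), G w <+: G (w ++ b) := by
    intro w
    induction w with
    | nil => exact nil_prefix
    | cons s w ih =>
      cases w with
      | nil => exact nil_prefix
      | cons t w => exact (cons_prefix_cons.2 ⟨rfl, ih⟩ :)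
  have h2 : ∀ w : List (Fin 5), G w <:+ G (a ++ w) := by
    intro w
    induction a with
    | nil => exact suffix_rfl
    | cons s a ih =>
      rw [cons_append]
      cases e : a ++ w with
      | nil => rw [(append_eq_nil_iff.1 e).2]; exact nil_suffix
      | cons t r => rw [e] at ih; exact ih.trans (suffix_cons _ _)
  rw [append_assoc]
  exact (h1 w).isInfix.trans (h2 _).isInfix

theorem G_fl (L : List (List (Fin 5))) (h : ∀ v ∈ L, v ∈ W) : ∀ r ∈ [[0, 1], [1, (0 : Fin 5)]],
    ∃ L' : List (List (Fin 5)), (∀ v ∈ L', v ∈ W) ∧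
      r ++ 2 :: G (L.flatten ++ [0]) ++ [3, 4] = L'.flatten := by
  induction L with
  | nil => exact fun r hr => ⟨[r ++ [2, 3, 4]], by revert r; decide, by simp [G]⟩
  | cons w L ih =>
    intro r hr
    have ih := ih fun v hv => h v (mem_cons_of_mem _ hv)
    obtain ⟨s, t, e, hs⟩ : ∃ s t, L.flatten ++ [0] = s :: t ∧ (s = 0 ∨ s = 1) := by
      cases L with
      | nil => exact ⟨0, [], rfl, Or.inl rfl⟩
      | cons v L =>
        have := h v (by simp)
        simp only [W, Finset.mem_insert, Finset.mem_singleton] at this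
        rcases this with rfl | rfl | rfl | rfl <;> simp
    have g3 : g 3 s = 2 ∧ g 4 s = 2 := by rcases hs with rfl | rfl <;> decide
    obtain ⟨A, a1, a2⟩ := ih [0, 1] (by simp)
    obtain ⟨B, b1, b2⟩ := ih [1, 0] (by simp)
    have hw := h w (by simp)
    have k1 : r ++ [2, 3, 4] ∈ W ∧ r ++ [2, 4, 3] ∈ W := by revert r; decide
    rw [e] at a2 b2
    simp only [W, Finset.mem_insert, Finset.mem_singleton] at hw
    rw [flatten_cons, append_assoc w, e]
    rcases hw with rfl | rfl | rfl | rfl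
    · exact ⟨(r ++ [2, 3, 4]) :: A, by simpa [k1] using a1, by simp [G, ← a2, g3]; decide⟩
    · exact ⟨(r ++ [2, 4, 3]) :: A, by simpa [k1] using a1, by simp [G, ← a2, g3]; decide⟩
    · exact ⟨(r ++ [2, 3, 4]) :: B, by simpa [k1] using b1, by simp [G, ← b2, g3]; decide⟩
    · exact ⟨(r ++ [2, 4, 3]) :: B, by simpa [k1] using b1, by simp [G, ← b2, g3]; decide⟩

theorem wd {A : Type} (x : ℤ → A) (i : ℤ) (n : ℕ) : ((range (n + 1)).map fun j : ℕ => x (i + j)) =
    x i :: (range n).map fun j : ℕ => x (i + 1 + j) := by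
  simp [range_succ_eq_map, add_assoc, add_comm (1 : ℤ)]

theorem G_word (x : ℤ → Fin 5) (n : ℕ) : ∀ i : ℤ, G ((range (n + 1)).map fun j : ℕ => x (i + j)) =
    (range n).map fun j : ℕ => g (x (i + j)) (x (i + j + 1)) := by
  induction n with
  | zero => simp [G]
  | succ n ih =>
    intro i
    rw [wd, wd, G, ← wd, ih, wd fun i => g (x i) (x (i + 1))]

theorem ne : (X fun _ => W).Nonempty := by
  let x : ℤ → Fin 5 := fun i => ⟨(i % 5).toNat, by omega⟩
  have h : ∀ (n : ℕ) (i : ℤ), ∃ m, [0, 1, 2, 3, (4 : Fin 5)].take (x i) ++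
      ((range n).map fun j : ℕ => x (i + j)) <+: (replicate m [0, 1, 2, 3, 4]).flatten := by
    intro n
    induction n with
    | zero => exact fun i => ⟨1, by simpa using take_prefix _ _⟩
    | succ n ih =>
      intro i
      obtain ⟨m, hm⟩ := ih (i + 1)
      rw [wd]
      have : i % 5 = 0 ∨ i % 5 = 1 ∨ i % 5 = 2 ∨ i % 5 = 3 ∨ i % 5 = 4 := by omega
      rcases this with e | e | e | e | e
      · exact ⟨m, by simpa [x, e, show (i + 1) % 5 = 1 by omega] using hm⟩
      · exact ⟨m, by simpa [x, e, show (i + 1) % 5 = 2 by omega] using hm⟩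
      · exact ⟨m, by simpa [x, e, show (i + 1) % 5 = 3 by omega] using hm⟩
      · exact ⟨m, by simpa [x, e, show (i + 1) % 5 = 4 by omega] using hm⟩
      · exact ⟨m + 1, by simpa [x, e, show (i + 1) % 5 = 0 by omega, replicate_succ] using hm⟩
  refine ⟨x, fun i n => (legal_iff _).2 ?_⟩
  obtain ⟨m, hm⟩ := h n i
  exact ⟨_, fun v hv => by rw [eq_of_mem_replicate hv]; simp [W],
    (suffix_append _ _).isInfix.trans hm.isInfix⟩

theorem maps {x : ℤ → Fin 5} (hx : x ∈ X fun _ => W) (k : ℤ) :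
    (fun i => g (x (i + k)) (x (i + k + 1))) ∈ X fun _ => W := by
  intro i n
  obtain ⟨L, a, b⟩ := (legal_iff _).1 (hx (i + k) (n + 1))
  obtain ⟨L', c, d⟩ := G_fl L a [0, 1] (by simp)
  have := G_inf (b.trans (prefix_append _ [0]).isInfix)
  rw [G_word] at this
  refine (legal_iff _).2 ⟨L', c, ?_⟩
  simp only [add_right_comm i k] at this
  exact this.trans ⟨[0, 1, 2], [3, 4], by rw [← d]; simp⟩

theorem pair {x : ℤ → Fin 5} (hx : x ∈ X fun _ => W) (i : ℤ) : x i ≤ 1 → x (i + 1) ≤ 2 := by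
  obtain ⟨L, a, b⟩ := (legal_iff _).1 (hx i 2)
  have : IsChain (fun s t : Fin 5 => s ≤ 1 → t ≤ 2) L.flatten := by
    clear b
    induction L with
    | nil => simp
    | cons w L ih =>
      have ih := ih fun v hv => a v (mem_cons_of_mem _ hv)
      have hw := a w (by simp)
      simp only [W, Finset.mem_insert, Finset.mem_singleton] at hw
      rw [flatten_cons]
      generalize L.flatten = r at ih
      rcases hw with rfl | rfl | rfl | rfl <;> cases r <;> simp [ih]
  obtain ⟨u, v, e⟩ := b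
  rw [← e] at this
  simpa [range_succ] using this.left_of_append.right_of_append

theorem gg {x : ℤ → Fin 5} (hx : x ∈ X fun _ => W) (i : ℤ) :
    g (g (x i) (x (i + 1))) (g (x (i + 1)) (x (i + 1 + 1))) = x (i + 1) := by
  have a := pair hx i
  have b := pair hx (i + 1)
  revert a b
  generalize x i = s, x (i + 1) = t, x (i + 1 + 1) = u
  revert s t u; decide

theorem result : ∃ (k : ℕ) (θ : Fin k → Finset (List (Fin k))), Good θ ∧ (X θ).Nonempty ∧
    ∃ (f : X θ ≃ₜ X θ) (n : ℕ), 2 ≤ n ∧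
      (∀ x y : X θ, (∀ i, y.1 i = x.1 (i + 1)) → ∀ i, (f y).1 i = (f x).1 (i + 1)) ∧
      ∀ x i, (f^[n] x).1 i = x.1 (i + 1) := by
  have ct : ∀ k : ℤ, Continuous fun (x : X fun _ : Fin 5 => W) (i : ℤ) =>
      g (x.1 (i + k)) (x.1 (i + k + 1)) := fun k => continuous_pi fun i =>
    (continuous_of_discreteTopology (f := fun p : Fin 5 × Fin 5 => g p.1 p.2)).comp
      (f := fun x : X fun _ : Fin 5 => W => (x.1 (i + k), x.1 (i + k + 1)))
      (((continuous_apply _).comp continuous_subtype_val).prodMk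
        ((continuous_apply _).comp continuous_subtype_val))
  refine ⟨5, fun _ => W, ⟨by decide, by decide, ⟨1, le_rfl, fun a b => ⟨[0, 1, 2, 3, 4],
    ⟨[b], rfl, [[0, 1, 2, 3, 4]], by simp [W], rfl⟩, by revert a; decide⟩⟩, 0, by decide⟩, ne,
    ⟨⟨fun x => ⟨_, maps x.2 0⟩, fun x => ⟨_, maps x.2 (-1)⟩, fun x => ?_, fun x => ?_⟩,
      (ct 0).subtype_mk _, (ct (-1)).subtype_mk _⟩, 2, le_rfl, fun x y h i => ?_, fun x i => ?_⟩
  · ext1; ext1 i; simpa using gg x.2 (i + -1)
  · ext1; ext1 i; simpa using gg x.2 (i + -1)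
  · simp [h]
  · simpa using gg x.2 i

end Pool.Agent.Results.MP_0ef12e_an.Yes
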